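import Mathlib
import Pool.Agent.Helper17.R5.Sheet

/-! Row BND. -/

set_option autoImplicit false

namespace Pool.Helper17.R5

theorem h1_MM_le : (8 : ℤ) ≤ MM := by
  unfold MM
  have h := Nat.self_le_factorial 1000
  have h2 : 8 ≤ Nat.factorial 1000 := le_trans (by norm_num) h
  exact_mod_cast h2

theorem h1_abs_mul {x y a b : ℤ} (hx : |x| ≤ a) (hy : |y| ≤ b) : |x * y| ≤ a * b := by
  rw [abs_mul]
  exact mul_le_mul hx hy (abs_nonneg _) ((abs_nonneg _).trans hx)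

theorem h1_core (M : ℤ) (hM : 8 ≤ M) (N : ℤ) (hN' : 1 ≤ N) (y : Fin 5 → ℤ) (t : Fin 5 → ℤ)
    (htb : ∀ i, 0 ≤ t i ∧ t i ≤ N - 1)
    (e0 : y 0 = 8 + M * (N + t 0)) (e1 : y 1 = 4 + M * (10 * N + t 1))
    (e2 : y 2 = 3 + M * (N + t 2)) (e3 : y 3 = 2 + M * (N + t 3))
    (e4 : y 4 = 5 + M * (10 * N + t 4))
    (r1 : 6 * cc y = y 3 ^ 2 + y 1 ^ 2 - 2 * y 0 ^ 2 - 2 * y 2 ^ 2)
    (r2 : 6 * bb y = y 4 ^ 2 - 12 * y 0 ^ 2 - 3 * y 3 ^ 2 - y 1 ^ 2 + 3 * y 2 ^ 2)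
    (r3 : 6 * dd y = 6 * y 3 ^ 2 - 2 * y 1 ^ 2 - y 4 ^ 2 + 12 * y 0 ^ 2 - 3 * y 2 ^ 2) :
    (∀ i, 0 < y i ∧ y i ≤ 58 * (11 * M) ^ 6 * N) ∧
  |bb y| ≤ 58 * (11 * M) ^ 6 * N ^ 2 ∧ |cc y| ≤ 58 * (11 * M) ^ 6 * N ^ 2 ∧
  |dd y| ≤ 58 * (11 * M) ^ 6 * N ^ 2 ∧
  9 * (y 0 ^ 2 + y 2 ^ 2 + y 3 ^ 2) - (y 1 ^ 2 + y 4 ^ 2) ≤
    -N ^ 2 ∧
  (∀ i s, (s = 1 ∨ s = -1) → |xP y i s| ≤ 58 * (11 * M) ^ 6 * N ^ 2) ∧
  (∀ s, (s = 1 ∨ s = -1) → |xQ y s| ≤ 58 * (11 * M) ^ 6 * N ^ 2) ∧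
  |aA y| ≤ 58 * (11 * M) ^ 6 * N ^ 4 ∧ |aB y| ≤ 58 * (11 * M) ^ 6 * N ^ 6 := by
  have hMt : ∀ i, 0 ≤ M * t i ∧ M * t i ≤ M * N - M := by
    intro i
    have := htb i
    constructor
    · exact mul_nonneg (by linarith) this.1
    · have h5 := mul_le_mul_of_nonneg_left this.2 (by linarith : (0 : ℤ) ≤ M)
      linarith [mul_sub M N 1]
  have m0 := hMt 0
  have m1 := hMt 1
  have m2 := hMt 2
  have m3 := hMt 3
  have m4 := hMt 4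
  have hNP : N ≤ M * N := by nlinarith
  have hP8 : 8 ≤ M * N := by nlinarith
  obtain ⟨P, hP⟩ : ∃ P, P = M * N := ⟨_, rfl⟩
  rw [← hP] at m0 m1 m2 m3 m4 hNP hP8
  have b0 : 0 < y 0 ∧ y 0 ≤ 2 * P := by
    have : y 0 = 8 + P + M * t 0 := by rw [e0, hP]; ring
    rw [this]; constructor <;> linarith
  have b2 : 0 < y 2 ∧ y 2 ≤ 2 * P := by
    have : y 2 = 3 + P + M * t 2 := by rw [e2, hP]; ring
    rw [this]; constructor <;> linarith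
  have b3 : 0 < y 3 ∧ y 3 ≤ 2 * P := by
    have : y 3 = 2 + P + M * t 3 := by rw [e3, hP]; ring
    rw [this]; constructor <;> linarith
  have b1 : 10 * P ≤ y 1 ∧ y 1 ≤ 11 * P := by
    have : y 1 = 4 + 10 * P + M * t 1 := by rw [e1, hP]; ring
    rw [this]; constructor <;> linarith
  have b4 : 10 * P ≤ y 4 ∧ y 4 ≤ 11 * P := by
    have : y 4 = 5 + 10 * P + M * t 4 := by rw [e4, hP]; ring
    rw [this]; constructor <;> linarith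
  have hP0 : 0 < P := by linarith
  obtain ⟨Z, hZ⟩ : ∃ Z, Z = 11 * P := ⟨_, rfl⟩
  have hZ0 : 0 < Z := by linarith
  have hall : ∀ i, 0 < y i ∧ y i ≤ Z := by
    intro i
    fin_cases i
    · exact ⟨b0.1, by simp only [Fin.zero_eta, Fin.isValue]; linarith⟩
    · exact ⟨by simp only [Fin.mk_one, Fin.isValue]; linarith, by
        simp only [Fin.mk_one, Fin.isValue]; linarith⟩
    · exact ⟨b2.1, by simp only [Fin.reduceFinMk, Fin.isValue]; linarith⟩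
    · exact ⟨b3.1, by simp only [Fin.reduceFinMk, Fin.isValue]; linarith⟩
    · exact ⟨by simp only [Fin.reduceFinMk, Fin.isValue]; linarith, by
        simp only [Fin.reduceFinMk, Fin.isValue]; linarith⟩
  have habs : ∀ i, |y i| ≤ Z := fun i => by rw [abs_of_pos (hall i).1]; exact (hall i).2
  have hsq : ∀ i, 0 ≤ y i ^ 2 ∧ y i ^ 2 ≤ Z ^ 2 := by
    intro i
    refine ⟨sq_nonneg _, ?_⟩
    exact pow_le_pow_left₀ (hall i).1.le (hall i).2 2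
  have s0 := hsq 0
  have s1 := hsq 1
  have s2 := hsq 2
  have s3 := hsq 3
  have s4 := hsq 4
  have hcc : |cc y| ≤ Z ^ 2 := abs_le.mpr ⟨by linarith, by linarith⟩
  have hbb : |bb y| ≤ 4 * Z ^ 2 := abs_le.mpr ⟨by linarith, by linarith⟩
  have hdd : |dd y| ≤ 4 * Z ^ 2 := abs_le.mpr ⟨by linarith, by linarith⟩
  have hM11 : 1 ≤ 11 * M := by linarith
  have hpw : ∀ (K : ℤ) (j : ℕ), 0 ≤ K → K ≤ 58 → j ≤ 6 →
      K * Z ^ j ≤ 58 * (11 * M) ^ 6 * N ^ j := by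
    intro K j hK0 hK hj
    have hZe : Z ^ j = (11 * M) ^ j * N ^ j := by
      rw [← mul_pow]
      congr 1
      rw [hZ, hP]; ring
    rw [hZe, ← mul_assoc]
    refine mul_le_mul_of_nonneg_right ?_ (pow_nonneg (by linarith) j)
    refine mul_le_mul hK (pow_le_pow_right₀ hM11 hj) (pow_nonneg (by linarith) j)
      (by norm_num)
  have hp1 := hpw 1 1 (by norm_num) (by norm_num) (by norm_num)
  have hp2 := hpw 19 2 (by norm_num) (by norm_num) (by norm_num)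
  have hp4 := hpw 23 4 (by norm_num) (by norm_num) (by norm_num)
  have hp6 := hpw 58 6 (by norm_num) (by norm_num) (by norm_num)
  clear hpw
  have hZ2 : 0 ≤ Z ^ 2 := sq_nonneg Z
  have hZZ : Z * Z = Z ^ 2 := by ring
  refine ⟨?_, ?_, ?_, ?_, ?_, ?_, ?_, ?_, ?_⟩
  · intro i
    refine ⟨(hall i).1, ?_⟩
    have := (hall i).2
    simp only [pow_one, one_mul] at hp1
    linarith
  · linarith
  · linarith
  · linarith
  · clear hp1 hp2 hp4 hp6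
    have c0 : y 0 ^ 2 ≤ (2 * P) ^ 2 := pow_le_pow_left₀ b0.1.le b0.2 2
    have c2 : y 2 ^ 2 ≤ (2 * P) ^ 2 := pow_le_pow_left₀ b2.1.le b2.2 2
    have c3 : y 3 ^ 2 ≤ (2 * P) ^ 2 := pow_le_pow_left₀ b3.1.le b3.2 2
    have c1 : (10 * P) ^ 2 ≤ y 1 ^ 2 := pow_le_pow_left₀ (by linarith) b1.1 2
    have c4 : (10 * P) ^ 2 ≤ y 4 ^ 2 := pow_le_pow_left₀ (by linarith) b4.1 2
    have c5 : N ^ 2 ≤ P ^ 2 := pow_le_pow_left₀ (by linarith) hNP 2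
    have c6 : (2 * P) ^ 2 = 4 * P ^ 2 := by ring
    have c7 : (10 * P) ^ 2 = 100 * P ^ 2 := by ring
    have c8 : 0 ≤ P ^ 2 := sq_nonneg P
    linarith
  · intro i s hs
    have hs1 : |s| ≤ 1 := by rcases hs with rfl | rfl <;> norm_num
    have h1 : |y 0 * y i| ≤ Z * Z := h1_abs_mul (habs 0) (habs i)
    have h2 : |s * (y 0 * y i)| ≤ 1 * (Z * Z) := h1_abs_mul hs1 h1
    have hxi : |xi i| ≤ 2 := by fin_cases i <;> simp [xi]
    have hxi2 : |xi i ^ 2| ≤ 4 := by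
      rw [abs_pow]
      have := pow_le_pow_left₀ (abs_nonneg (xi i)) hxi 2
      linarith
    have h3 : |y 0 ^ 2 * xi i ^ 2| ≤ Z ^ 2 * 4 :=
      h1_abs_mul (by rw [abs_of_nonneg s0.1]; exact s0.2) hxi2
    have h4 : |bb y * xi i| ≤ 4 * Z ^ 2 * 2 := h1_abs_mul hbb hxi
    unfold xP
    have e : 2 * y 0 ^ 2 * xi i ^ 2 + bb y * xi i + cc y - 2 * s * y 0 * y i =
      2 * (y 0 ^ 2 * xi i ^ 2) + bb y * xi i + cc y - 2 * (s * (y 0 * y i)) := by ring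
    rw [e]
    have g1 := abs_le.mp h2
    have g2 := abs_le.mp h3
    have g3 := abs_le.mp h4
    have g4 := abs_le.mp hcc
    refine abs_le.mpr ⟨?_, ?_⟩ <;> linarith
  · intro s hs
    have hs1 : |s| ≤ 1 := by rcases hs with rfl | rfl <;> norm_num
    have h1 : |y 2 * y 3| ≤ Z * Z := h1_abs_mul (habs 2) (habs 3)
    have h2 : |s * (y 2 * y 3)| ≤ 1 * (Z * Z) := h1_abs_mul hs1 h1
    unfold xQ
    have e : cc y + dd y + 2 * y 2 ^ 2 - 2 * s * y 2 * y 3 =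
      cc y + dd y + 2 * y 2 ^ 2 - 2 * (s * (y 2 * y 3)) := by ring
    rw [e]
    have g1 := abs_le.mp h2
    have g3 := abs_le.mp hdd
    have g4 := abs_le.mp hcc
    refine abs_le.mpr ⟨?_, ?_⟩ <;> linarith
  · have q0 : |y 0 ^ 2| ≤ Z ^ 2 := by rw [abs_of_nonneg s0.1]; exact s0.2
    have q2 : |y 2 ^ 2| ≤ Z ^ 2 := by rw [abs_of_nonneg s2.1]; exact s2.2
    have h1 := abs_le.mp (h1_abs_mul q0 q2)
    have h2 := abs_le.mp (h1_abs_mul hbb hdd)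
    have h3 := abs_le.mp (h1_abs_mul hcc hcc)
    have e : aA y = -(4 * (y 0 ^ 2 * y 2 ^ 2) - bb y * dd y + 3 * (cc y * cc y)) := by
      unfold aA; ring
    have k1 : Z ^ 2 * Z ^ 2 = Z ^ 4 := by ring
    have k2 : 4 * Z ^ 2 * (4 * Z ^ 2) = 16 * Z ^ 4 := by ring
    rw [k1] at h1 h3
    rw [k2] at h2
    rw [e]
    refine abs_le.mpr ⟨?_, ?_⟩ <;> linarith
  · have q0 : |y 0 ^ 2| ≤ Z ^ 2 := by rw [abs_of_nonneg s0.1]; exact s0.2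
    have q2 : |y 2 ^ 2| ≤ Z ^ 2 := by rw [abs_of_nonneg s2.1]; exact s2.2
    have h1 := abs_le.mp (h1_abs_mul q0 (h1_abs_mul hdd hdd))
    have h2 := abs_le.mp (h1_abs_mul q2 (h1_abs_mul hbb hbb))
    have h3 := abs_le.mp (h1_abs_mul (h1_abs_mul hbb hdd) hcc)
    have h4 := abs_le.mp (h1_abs_mul (h1_abs_mul q0 hcc) q2)
    have h5 := abs_le.mp (h1_abs_mul hcc (h1_abs_mul hcc hcc))
    have e : aB y = y 0 ^ 2 * (dd y * dd y) + y 2 ^ 2 * (bb y * bb y) - bb y * dd y * cc y -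
        8 * (y 0 ^ 2 * cc y * y 2 ^ 2) + 2 * (cc y * (cc y * cc y)) := by
      unfold aB; ring
    have k1 : Z ^ 2 * (4 * Z ^ 2 * (4 * Z ^ 2)) = 16 * Z ^ 6 := by ring
    have k2 : 4 * Z ^ 2 * (4 * Z ^ 2) * Z ^ 2 = 16 * Z ^ 6 := by ring
    have k3 : Z ^ 2 * Z ^ 2 * Z ^ 2 = Z ^ 6 := by ring
    have k4 : Z ^ 2 * (Z ^ 2 * Z ^ 2) = Z ^ 6 := by ring
    rw [k1] at h1 h2
    rw [k2] at h3
    rw [k3] at h4
    rw [k4] at h5
    rw [e]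
    refine abs_le.mpr ⟨?_, ?_⟩ <;> linarith

/-- Row BND. -/
theorem h1_BND (hREL : ST_REL) : ST_BND := by
  have hM := h1_MM_le
  refine ⟨58 * (11 * MM) ^ 6, ?_, ?_⟩
  · have : 1 ≤ (11 * MM) ^ 6 := one_le_pow₀ (by linarith)
    linarith
  intro N hN t ht
  have hN' : (1 : ℤ) ≤ (N : ℤ) := by exact_mod_cast hN
  have htb : ∀ i, 0 ≤ (t i : ℤ) ∧ (t i : ℤ) ≤ (N : ℤ) - 1 := by
    intro i
    unfold Box at ht
    rw [Fintype.mem_piFinset] at ht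
    have h := Finset.mem_range.mp (ht i)
    omega
  have hg : Good (yy N t) := by
    intro i
    unfold yy
    exact ⟨sh i * (N : ℤ) + (t i : ℤ), by ring⟩
  obtain ⟨r1, r2, r3, -⟩ := hREL _ hg
  refine ⟨hg, ?_⟩
  exact h1_core MM hM N hN' (yy N t) (fun i => (t i : ℤ)) htb (by simp [yy, yb, sh])
    (by simp [yy, yb, sh]) (by simp [yy, yb, sh]) (by simp [yy, yb, sh]) (by simp [yy, yb, sh])
    r1 r2 r3

end Pool.Helper17.R5
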