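import Mathlib
import Pool.Agent.Helper17.R5.Sheet

/-! Row CNT1 of the rank five project. -/

set_option autoImplicit false

namespace Pool.Helper17.R5

namespace CNT1aux

/-- integers `z` with `|c + z D| ≤ B D` -/
noncomputable def rng (c D : ℤ) (B : ℕ) : Finset ℤ :=
  Finset.Icc (-(B : ℤ) - c / D) ((B : ℤ) + (-c) / D)

theorem mem_rng {c D z : ℤ} {B : ℕ} (hD : 0 < D) (h : |c + z * D| ≤ B * D) :
    z ∈ rng c D B := by
  unfold rng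
  rw [Finset.mem_Icc]
  have h1 := (abs_le.mp h).1
  have h2 := (abs_le.mp h).2
  constructor
  · have : -z - B ≤ c / D := by
      rw [Int.le_ediv_iff_mul_le hD]
      linarith [h1, sub_mul (-z) (B : ℤ) D, neg_mul z D]
    linarith
  · have : z - B ≤ (-c) / D := by
      rw [Int.le_ediv_iff_mul_le hD]
      linarith [h2, sub_mul z (B : ℤ) D]
    linarith

theorem card_rng {c D : ℤ} {B : ℕ} (hD : 0 < D) : (rng c D B).card ≤ 2 * B + 1 := by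
  unfold rng
  rw [Int.card_Icc]
  have h1 : c / D * D ≤ c := Int.ediv_mul_le c hD.ne'
  have h2 : (-c) / D * D ≤ -c := Int.ediv_mul_le (-c) hD.ne'
  have h3 : c / D + (-c) / D ≤ 0 := by
    by_contra hh
    push Not at hh
    have h4 : (c / D + (-c) / D) * D ≤ 0 := by
      rw [add_mul]; linarith
    have h5 : 0 < (c / D + (-c) / D) * D := mul_pos hh hD
    linarith
  omega

/-- signed divisors -/
def sdv (m : ℤ) : Finset ℤ :=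
  (m.natAbs.divisors.image (fun d : ℕ => (d : ℤ))) ∪
    (m.natAbs.divisors.image (fun d : ℕ => -(d : ℤ)))

theorem mem_sdv {m p r : ℤ} (hm : m ≠ 0) (h : m = p * r) : p ∈ sdv m := by
  unfold sdv
  have hd : p.natAbs ∈ m.natAbs.divisors := by
    rw [Nat.mem_divisors]
    refine ⟨?_, by simpa using hm⟩
    rw [Int.natAbs_dvd_natAbs]
    exact ⟨r, h⟩
  rw [Finset.mem_union, Finset.mem_image, Finset.mem_image]
  rcases le_total 0 p with hp | hp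
  · left
    exact ⟨p.natAbs, hd, by omega⟩
  · right
    exact ⟨p.natAbs, hd, by omega⟩

theorem card_sdv (m : ℤ) : (sdv m).card ≤ 2 * m.natAbs.divisors.card := by
  unfold sdv
  refine (Finset.card_union_le _ _).trans ?_
  have h1 := Finset.card_image_le (s := m.natAbs.divisors) (f := fun d : ℕ => (d : ℤ))
  have h2 := Finset.card_image_le (s := m.natAbs.divisors) (f := fun d : ℕ => -(d : ℤ))
  omega

/-- dependent product -/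
def dep {A B : Type} [DecidableEq A] [DecidableEq B] (s : Finset A) (t : A → Finset B) :
    Finset (A × B) :=
  s.biUnion fun a => (t a).image (Prod.mk a)

theorem mem_dep {A B : Type} [DecidableEq A] [DecidableEq B] {s : Finset A} {t : A → Finset B}
    {a : A} {b : B} (ha : a ∈ s) (hb : b ∈ t a) : (a, b) ∈ dep s t := by
  unfold dep
  rw [Finset.mem_biUnion]
  exact ⟨a, ha, Finset.mem_image_of_mem _ hb⟩

theorem card_dep {A B : Type} [DecidableEq A] [DecidableEq B] (s : Finset A) (t : A → Finset B)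
    (m : ℕ) (h : ∀ a ∈ s, (t a).card ≤ m) : (dep s t).card ≤ s.card * m := by
  unfold dep
  refine Finset.card_biUnion_le_card_mul _ _ _ ?_
  intro a ha
  exact Finset.card_image_le.trans (h a ha)

/-- the type of codes -/
abbrev Cd : Type := (ℤ × ℤ) × (ℤ × ℤ × ℤ × ℤ) × ℤ × (ℤ × ℤ × ℤ × ℤ × ℤ)

/-- the code of a form -/
def Rl (va vb vi vj vk : V3) (N : TF) (c : Cd) : Prop :=
  ∃ α β γ : V3, ∃ D κ rb rb' pi pi' ri ri' pj pj' rj rj' pk pk' rk rk' : ℤ,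
    c = ((lin α vi, lin α vj), (D, pi, pj, pk), κ, (pi', pj', pk', ri', rj')) ∧
    D ≠ 0 ∧ pi ≠ 0 ∧ pj ≠ 0 ∧ pk ≠ 0 ∧ pk * κ + pk' * D ≠ 0 ∧ Rep N α β γ ∧ lin α va = 0 ∧
    (lin α vb = D * rb ∧ 2 * lin β vb = D * rb' - κ * rb ∧ lin γ vb = -κ * rb') ∧
    (lin α vi = pi * ri ∧ 2 * lin β vi = pi * ri' + pi' * ri ∧ lin γ vi = pi' * ri') ∧
    (lin α vj = pj * rj ∧ 2 * lin β vj = pj * rj' + pj' * rj ∧ lin γ vj = pj' * rj') ∧
    (lin α vk = pk * rk ∧ 2 * lin β vk = pk * rk' + pk' * rk ∧ lin γ vk = pk' * rk')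

theorem rl_inj (hF : ST_FIB) {va vb vi vj vk : V3} (h1 : det3 vi vj vk ≠ 0)
    (h2 : det3 vi vj va ≠ 0) (h3 : det3 vi vj vb ≠ 0) {N N' : TF} {c : Cd}
    (hN : Rl va vb vi vj vk N c) (hN' : Rl va vb vi vj vk N' c) : N = N' := by
  obtain ⟨α, β, γ, D, κ, rb, rb', pi, pi', ri, ri', pj, pj', rj, rj', pk, pk', rk, rk', hc, hD,
    hpi, hpj, hpk, hq, hR, ha, hb, hi, hj, hk⟩ := hN
  obtain ⟨α', β', γ', D2, κ2, qb, qb', pi2, pi2', qi, qi', pj2, pj2', qj, qj', pk2, pk2', qk, qk',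
    hc2, hD2, hpi2, hpj2, hpk2, hq2, hR2, ha2, hb2, hi2, hj2, hk2⟩ := hN'
  rw [hc] at hc2
  simp only [Prod.mk.injEq] at hc2
  obtain ⟨⟨e1, e2⟩, ⟨e3, e4, e5, e6⟩, e7, e8, e9, e10, e11, e12⟩ := hc2
  subst e3 e4 e5 e6 e7 e8 e9 e10 e11 e12
  exact hF va vb vi vj vk h1 h2 h3 N N' α β γ α' β' γ' D κ rb rb' pi pi' ri ri' pj pj' rj rj'
    pk pk' rk rk' qb qb' qi qj qk qk' hD hpi hpj hpk hq hR hR2 ha ha2 e1 e2 hb hb2 hi hi2 hj hj2
    hk hk2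

/-- the value at `v` of a linear form vanishing at `va`, from the values at `vi, vj` -/
def mv (va vi vj v : V3) (x : ℤ × ℤ) : ℤ :=
  (det3 v vj va * x.1 + det3 vi v va * x.2) / det3 vi vj va

theorem mv_eq {va vi vj : V3} (h2 : det3 vi vj va ≠ 0) (v α : V3) (ha : lin α va = 0) :
    mv va vi vj v (lin α vi, lin α vj) = lin α v := by
  unfold mv
  refine Int.ediv_eq_of_eq_mul_right h2 ?_
  have : det3 vi vj va * lin α v = det3 v vj va * lin α vi + det3 vi v va * lin α vj +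
      det3 vi vj v * lin α va := by
    unfold det3 lin; ring
  rw [this, ha]; ring

theorem mv_le (va vi vj v : V3) (x : ℤ × ℤ) (X : ℕ) (h1 : x.1.natAbs ≤ X) (h2 : x.2.natAbs ≤ X) :
    (mv va vi vj v x).natAbs ≤ ((det3 v vj va).natAbs + (det3 vi v va).natAbs) * X := by
  unfold mv
  have h0 : ∀ a b : ℤ, (a / b).natAbs ≤ a.natAbs := Int.natAbs_ediv_le_natAbs
  refine (h0 _ _).trans ?_
  refine (Int.natAbs_add_le _ _).trans ?_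
  rw [Int.natAbs_mul, Int.natAbs_mul, add_mul]
  exact Nat.add_le_add (Nat.mul_le_mul le_rfl h1) (Nat.mul_le_mul le_rfl h2)

theorem numeric (k n τ a b p q r B2 Ri Rj : ℕ) (hk : 1 ≤ k) (hn : 1 ≤ n) (ha : 1 ≤ a)
    (hp : 1 ≤ p) (hq : 1 ≤ q) (hr : 1 ≤ r)
    (hB2 : B2 * n ≤ 4 * k * a * b) (hRi : Ri * (a ^ 2 * p) ≤ 2 * k * n ^ 2) (hRi1 : 1 ≤ Ri)
    (hRj : Rj * (a ^ 2 * q) ≤ 2 * k * n ^ 2) (hRj1 : 1 ≤ Rj)
    (hb : b ≤ k * n) (har : a * r ≤ k * n) :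
    (2 * (4 * k * a ^ 2) + 1) ^ 2 * ((2 * τ) ^ 4 * (B2 * ((2 * (2 * k * p) + 1) *
      ((2 * (2 * k * q) + 1) * ((2 * (2 * k * r) + 1) * ((2 * Ri + 1) * (2 * Rj + 1))))))) ≤
      71663616 * k ^ 10 * τ ^ 4 * n ^ 5 := by
  have e1 : 2 * (4 * k * a ^ 2) + 1 ≤ 12 * k * a ^ 2 := by
    have : 1 ≤ k * a ^ 2 := Nat.one_le_iff_ne_zero.mpr (by positivity)
    nlinarith
  have e2 : 2 * (2 * k * p) + 1 ≤ 6 * k * p := by
    have : 1 ≤ k * p := Nat.one_le_iff_ne_zero.mpr (by positivity)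
    nlinarith
  have e3 : 2 * (2 * k * q) + 1 ≤ 6 * k * q := by
    have : 1 ≤ k * q := Nat.one_le_iff_ne_zero.mpr (by positivity)
    nlinarith
  have e4 : 2 * (2 * k * r) + 1 ≤ 6 * k * r := by
    have : 1 ≤ k * r := Nat.one_le_iff_ne_zero.mpr (by positivity)
    nlinarith
  have e5 : 2 * Ri + 1 ≤ 3 * Ri := by omega
  have e6 : 2 * Rj + 1 ≤ 3 * Rj := by omega
  have hpos : 0 < n * (a ^ 2 * p) * (a ^ 2 * q) := by positivity
  refine Nat.le_of_mul_le_mul_left ?_ hpos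
  calc n * (a ^ 2 * p) * (a ^ 2 * q) * ((2 * (4 * k * a ^ 2) + 1) ^ 2 * ((2 * τ) ^ 4 * (B2 *
      ((2 * (2 * k * p) + 1) * ((2 * (2 * k * q) + 1) * ((2 * (2 * k * r) + 1) *
      ((2 * Ri + 1) * (2 * Rj + 1))))))))
      ≤ n * (a ^ 2 * p) * (a ^ 2 * q) * ((12 * k * a ^ 2) ^ 2 * ((2 * τ) ^ 4 * (B2 *
      ((6 * k * p) * ((6 * k * q) * ((6 * k * r) *
      ((3 * Ri) * (3 * Rj)))))))) := by gcongr
    _ = (12 * k * a ^ 2) ^ 2 * (2 * τ) ^ 4 * (6 * k * p) * (6 * k * q) * (6 * k * r) * 9 *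
        ((B2 * n) * (Ri * (a ^ 2 * p)) * (Rj * (a ^ 2 * q))) := by ring
    _ ≤ (12 * k * a ^ 2) ^ 2 * (2 * τ) ^ 4 * (6 * k * p) * (6 * k * q) * (6 * k * r) * 9 *
        ((4 * k * a * b) * (2 * k * n ^ 2) * (2 * k * n ^ 2)) := by gcongr
    _ = 71663616 * k ^ 8 * τ ^ 4 * n ^ 4 * (a ^ 4 * p * q) * ((a * r) * b) := by ring
    _ ≤ 71663616 * k ^ 8 * τ ^ 4 * n ^ 4 * (a ^ 4 * p * q) * ((k * n) * (k * n)) := by gcongr
    _ = n * (a ^ 2 * p) * (a ^ 2 * q) * (71663616 * k ^ 10 * τ ^ 4 * n ^ 5) := by ring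

/-- the finite set of codes -/
noncomputable def TT (va vb vi vj vk : V3) (X L n Bi Bj Bk Ri Rj : ℕ) : Finset Cd :=
  dep (Finset.Icc (-(X : ℤ)) X ×ˢ Finset.Icc (-(X : ℤ)) X) fun x =>
    dep (sdv (mv va vi vj vb x) ×ˢ (sdv x.1 ×ˢ (sdv x.2 ×ˢ sdv (mv va vi vj vk x)))) fun d =>
      dep (if d.1 * (n : ℤ) ≤ (L : ℤ) then Finset.Ico 0 d.1 else ∅) fun κ =>
        rng (d.2.1 * κ) d.1 Bi ×ˢ (rng (d.2.2.1 * κ) d.1 Bj ×ˢ (rng (d.2.2.2 * κ) d.1 Bk ×ˢ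
          (rng (x.1 / d.2.1 * κ) d.1 Ri ×ˢ rng (x.2 / d.2.2.1 * κ) d.1 Rj)))

theorem card_TT (va vb vi vj vk : V3) (X L n Bi Bj Bk Ri Rj τ : ℕ) (hn : 1 ≤ n)
    (hτ : ∀ m : ℕ, 1 ≤ m → m ≤ X → m.divisors.card ≤ τ)
    (hτb : ∀ m : ℕ, 1 ≤ m → m ≤ ((det3 vb vj va).natAbs + (det3 vi vb va).natAbs) * X →
      m.divisors.card ≤ τ)
    (hτk : ∀ m : ℕ, 1 ≤ m → m ≤ ((det3 vk vj va).natAbs + (det3 vi vk va).natAbs) * X →
      m.divisors.card ≤ τ) :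
    (TT va vb vi vj vk X L n Bi Bj Bk Ri Rj).card ≤
      (2 * X + 1) ^ 2 * ((2 * τ) ^ 4 * (L / n * ((2 * Bi + 1) *
        ((2 * Bj + 1) * ((2 * Bk + 1) * ((2 * Ri + 1) * (2 * Rj + 1))))))) := by
  unfold TT
  have hS0 : (Finset.Icc (-(X : ℤ)) X ×ˢ Finset.Icc (-(X : ℤ)) X).card = (2 * X + 1) ^ 2 := by
    rw [Finset.card_product, Int.card_Icc, pow_two]
    have : ((X : ℤ) + 1 - -(X : ℤ)).toNat = 2 * X + 1 := by omega
    rw [this]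
  rw [← hS0]
  refine card_dep _ _ _ ?_
  intro x hx
  rw [Finset.mem_product, Finset.mem_Icc, Finset.mem_Icc] at hx
  have hx1 : x.1.natAbs ≤ X := by omega
  have hx2 : x.2.natAbs ≤ X := by omega
  have hdc : ∀ (m : ℤ) (Y : ℕ), (∀ m : ℕ, 1 ≤ m → m ≤ Y → m.divisors.card ≤ τ) →
      m.natAbs ≤ Y → (sdv m).card ≤ 2 * τ := by
    intro m Y hY hm
    refine (card_sdv m).trans (Nat.mul_le_mul le_rfl ?_)
    rcases Nat.eq_zero_or_pos m.natAbs with h0 | h0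
    · rw [h0]; simp
    · exact hY _ h0 hm
  have hd1 := hdc _ _ hτb (mv_le va vi vj vb x X hx1 hx2)
  have hd2 := hdc _ _ hτ hx1
  have hd3 := hdc _ _ hτ hx2
  have hd4 := hdc _ _ hτk (mv_le va vi vj vk x X hx1 hx2)
  refine (card_dep _ _ (L / n * ((2 * Bi + 1) *
        ((2 * Bj + 1) * ((2 * Bk + 1) * ((2 * Ri + 1) * (2 * Rj + 1)))))) ?_).trans ?_
  · intro d hd
    refine (card_dep _ _ ((2 * Bi + 1) *
        ((2 * Bj + 1) * ((2 * Bk + 1) * ((2 * Ri + 1) * (2 * Rj + 1))))) ?_).trans ?_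
    · intro κ hκ
      have hD : 0 < d.1 := by
        split_ifs at hκ
        · rw [Finset.mem_Ico] at hκ
          omega
        · simp at hκ
      simp only [Finset.card_product]
      exact Nat.mul_le_mul (card_rng hD) (Nat.mul_le_mul (card_rng hD)
        (Nat.mul_le_mul (card_rng hD) (Nat.mul_le_mul (card_rng hD) (card_rng hD))))
    · refine Nat.mul_le_mul ?_ le_rfl
      split_ifs with hc
      · rw [Int.card_Ico, sub_zero]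
        rw [Nat.le_div_iff_mul_le (by omega)]
        rcases le_total 0 d.1 with h0 | h0
        · zify
          rw [Int.toNat_of_nonneg h0]
          exact hc
        · have : d.1.toNat = 0 := by omega
          rw [this]; simp
      · simp
  · refine Nat.mul_le_mul ?_ le_rfl
    simp only [Finset.card_product]
    calc (sdv (mv va vi vj vb x)).card * ((sdv x.1).card * ((sdv x.2).card *
        (sdv (mv va vi vj vk x)).card)) ≤ (2 * τ) * ((2 * τ) * ((2 * τ) * (2 * τ))) :=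
          Nat.mul_le_mul hd1 (Nat.mul_le_mul hd2 (Nat.mul_le_mul hd3 hd4))
      _ = (2 * τ) ^ 4 := by ring

/-- a square root comparison -/
theorem sq_cmp {x y : ℤ} (hy : 0 ≤ y) (h : x ^ 2 ≤ y ^ 2) : |x| ≤ y :=
  abs_le_of_sq_le_sq h hy

theorem exists_code {va vb vi vj vk : V3} (h2 : det3 vi vj va ≠ 0) {k n : ℕ} (hk : 1 ≤ k)
    (hn : 1 ≤ n) {ea eb fi fj fk : ℕ} {N : TF} {Qa Qb Qi Qj Qk : ℤ}
    (hQa : (4 : ℤ) ^ ea ≤ Qa ∧ Qa < 4 ^ (ea + 1)) (hQb : (4 : ℤ) ^ eb ≤ Qb ∧ Qb < 4 ^ (eb + 1))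
    (hQi : (4 : ℤ) ^ (ea + fi) ≤ Qi ∧ Qi < 4 ^ (ea + fi + 1))
    (hQj : (4 : ℤ) ^ (ea + fj) ≤ Qj ∧ Qj < 4 ^ (ea + fj + 1))
    (hQk : (4 : ℤ) ^ (ea + fk) ≤ Qk ∧ Qk < 4 ^ (ea + fk + 1))
    (hw : Wit (k : ℤ) n va vb vi vj vk N Qa Qb Qi Qj Qk) :
    ∃ c ∈ TT va vb vi vj vk (k * 4 ^ (ea + 1)) (k * 2 ^ (ea + eb + 2)) n (k * 2 ^ (fi + 1))
      (k * 2 ^ (fj + 1)) (k * 2 ^ (fk + 1)) (k * n ^ 2 / 2 ^ (ea + (ea + fi)) + 1)
      (k * n ^ 2 / 2 ^ (ea + (ea + fj)) + 1), Rl va vb vi vj vk N c := by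
  obtain ⟨α, β, γ, D, κ, rb, rb', pi, pi', ri, ri', pj, pj', rj, rj', pk, pk', rk, rk', hR, ha,
    hb, hi, hj, hkk, ⟨hκ0, hκ1⟩, ⟨nb, ni, nj, nk, hq⟩, ⟨xi, xj⟩, hDn, ⟨qi, qj, qk⟩, ⟨si, sj⟩,
    ⟨o1, o2, o3, o4, o5⟩, -⟩ := hw
  have hD : 0 < D := lt_of_le_of_lt hκ0 hκ1
  have hk' : (1 : ℤ) ≤ (k : ℤ) := by exact_mod_cast hk
  have hn' : (1 : ℤ) ≤ (n : ℤ) := by exact_mod_cast hn
  have hpi : pi ≠ 0 := by
    intro h; rw [h] at hi; exact ni (by rw [hi.1]; ring)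
  have hpj : pj ≠ 0 := by
    intro h; rw [h] at hj; exact nj (by rw [hj.1]; ring)
  have hpk : pk ≠ 0 := by
    intro h; rw [h] at hkk; exact nk (by rw [hkk.1]; ring)
  have hKQ : (k : ℤ) * Qa ≤ ((k * 4 ^ (ea + 1) : ℕ) : ℤ) := by
    push_cast
    exact mul_le_mul_of_nonneg_left hQa.2.le (by positivity)
  -- the intervals for `p'`
  have hP : ∀ (z Qu : ℤ) (f : ℕ), Qu < 4 ^ (ea + f + 1) → z ^ 2 * Qa ≤ k * Qu * D ^ 2 →
      |z| ≤ ((k * 2 ^ (f + 1) : ℕ) : ℤ) * D := by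
    intro z Qu f hQu hz
    refine sq_cmp (by positivity) ?_
    have h4 : (0 : ℤ) < 4 ^ ea := by positivity
    refine le_of_mul_le_mul_right (a := (4 : ℤ) ^ ea) ?_ h4
    have hkk2 : (k : ℤ) ≤ (k : ℤ) ^ 2 := le_self_pow₀ hk' two_ne_zero
    calc z ^ 2 * 4 ^ ea ≤ z ^ 2 * Qa := mul_le_mul_of_nonneg_left hQa.1 (sq_nonneg z)
      _ ≤ k * Qu * D ^ 2 := hz
      _ ≤ (k : ℤ) * 4 ^ (ea + f + 1) * D ^ 2 := by
          refine mul_le_mul_of_nonneg_right ?_ (sq_nonneg D)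
          exact mul_le_mul_of_nonneg_left hQu.le (by positivity)
      _ ≤ (k : ℤ) ^ 2 * 4 ^ (ea + f + 1) * D ^ 2 := by
          refine mul_le_mul_of_nonneg_right ?_ (sq_nonneg D)
          exact mul_le_mul_of_nonneg_right hkk2 (by positivity)
      _ = (((k * 2 ^ (f + 1) : ℕ) : ℤ) * D) ^ 2 * 4 ^ ea := by
          push_cast
          have : (4 : ℤ) ^ (ea + f + 1) = (2 ^ (f + 1)) ^ 2 * 4 ^ ea := by
            rw [← pow_mul, mul_comm (f + 1) 2, pow_mul, show (2 : ℤ) ^ 2 = 4 by norm_num,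
              ← pow_add]
            congr 1; ring
          rw [this]; ring
  have hRr : ∀ (z Qu : ℤ) (f : ℕ), 4 ^ (ea + f) ≤ Qu → z ^ 2 * Qa * Qu ≤ k * (n : ℤ) ^ 4 * D ^ 2 →
      |z| ≤ ((k * n ^ 2 / 2 ^ (ea + (ea + f)) + 1 : ℕ) : ℤ) * D := by
    intro z Qu f hQu hz
    have h2e : (0 : ℤ) < 2 ^ (ea + (ea + f)) := by positivity
    have hkk2 : (k : ℤ) ≤ (k : ℤ) ^ 2 := le_self_pow₀ hk' two_ne_zero
    have h1 : |z * 2 ^ (ea + (ea + f))| ≤ (k : ℤ) * (n : ℤ) ^ 2 * D := by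
      refine sq_cmp (by positivity) ?_
      calc (z * 2 ^ (ea + (ea + f))) ^ 2 = z ^ 2 * 4 ^ ea * 4 ^ (ea + f) := by
            have : ((2 : ℤ) ^ (ea + (ea + f))) ^ 2 = 4 ^ ea * 4 ^ (ea + f) := by
              rw [← pow_mul, mul_comm, pow_mul, show (2 : ℤ) ^ 2 = 4 by norm_num, ← pow_add]
            rw [mul_pow, this]; ring
        _ ≤ z ^ 2 * Qa * 4 ^ (ea + f) := by
            refine mul_le_mul_of_nonneg_right ?_ (by positivity)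
            exact mul_le_mul_of_nonneg_left hQa.1 (sq_nonneg z)
        _ ≤ z ^ 2 * Qa * Qu := by
            refine mul_le_mul_of_nonneg_left hQu ?_
            have : 0 ≤ Qa := by linarith
            positivity
        _ ≤ k * (n : ℤ) ^ 4 * D ^ 2 := hz
        _ ≤ (k : ℤ) ^ 2 * (n : ℤ) ^ 4 * D ^ 2 := by
            refine mul_le_mul_of_nonneg_right ?_ (sq_nonneg D)
            exact mul_le_mul_of_nonneg_right hkk2 (by positivity)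
        _ = ((k : ℤ) * (n : ℤ) ^ 2 * D) ^ 2 := by ring
    rw [abs_mul, abs_of_pos h2e] at h1
    have h3 : k * n ^ 2 ≤ (k * n ^ 2 / 2 ^ (ea + (ea + f)) + 1) * 2 ^ (ea + (ea + f)) := by
      have := Nat.lt_div_mul_add (a := k * n ^ 2) (b := 2 ^ (ea + (ea + f))) (by positivity)
      rw [add_mul, one_mul]
      exact this.le
    have h3' : (k : ℤ) * (n : ℤ) ^ 2 ≤
        ((k * n ^ 2 / 2 ^ (ea + (ea + f)) + 1 : ℕ) : ℤ) * 2 ^ (ea + (ea + f)) := by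
      exact_mod_cast h3
    refine le_of_mul_le_mul_right (a := (2 : ℤ) ^ (ea + (ea + f))) ?_ h2e
    calc |z| * 2 ^ (ea + (ea + f)) ≤ (k : ℤ) * (n : ℤ) ^ 2 * D := h1
      _ ≤ ((k * n ^ 2 / 2 ^ (ea + (ea + f)) + 1 : ℕ) : ℤ) * 2 ^ (ea + (ea + f)) * D :=
          mul_le_mul_of_nonneg_right h3' hD.le
      _ = _ := by ring
  have hDL : D * (n : ℤ) ≤ ((k * 2 ^ (ea + eb + 2) : ℕ) : ℤ) := by
    have h1 : |D * (n : ℤ)| ≤ ((k * 2 ^ (ea + eb + 2) : ℕ) : ℤ) := by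
      refine sq_cmp (by positivity) ?_
      have hkk2 : (k : ℤ) ≤ (k : ℤ) ^ 2 := le_self_pow₀ hk' two_ne_zero
      have hQa0 : 0 ≤ Qa := by linarith
      have hQb0 : 0 ≤ Qb := by linarith
      calc (D * (n : ℤ)) ^ 2 = D ^ 2 * (n : ℤ) ^ 2 := by ring
        _ ≤ k * Qa * Qb := hDn
        _ ≤ (k : ℤ) ^ 2 * 4 ^ (ea + 1) * 4 ^ (eb + 1) := by
            have := hQa.2.le
            have := hQb.2.le
            gcongr
        _ = (((k * 2 ^ (ea + eb + 2) : ℕ) : ℤ)) ^ 2 := by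
            push_cast
            have : (2 : ℤ) ^ (ea + eb + 2) = 2 ^ (ea + 1) * 2 ^ (eb + 1) := by
              rw [← pow_add]; congr 1; ring
            have h4 : ∀ e : ℕ, (4 : ℤ) ^ e = (2 ^ e) ^ 2 := by
              intro e
              rw [← pow_mul, mul_comm, pow_mul]; norm_num
            rw [this, h4, h4]; ring
    exact (le_abs_self _).trans h1
  refine ⟨((lin α vi, lin α vj), (D, pi, pj, pk), κ, (pi', pj', pk', ri', rj')), ?_, ?_⟩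
  · unfold TT
    refine mem_dep ?_ (mem_dep ?_ (mem_dep ?_ ?_))
    · rw [Finset.mem_product, Finset.mem_Icc, Finset.mem_Icc]
      have h5 := abs_le.mp (xi.trans hKQ)
      have h6 := abs_le.mp (xj.trans hKQ)
      exact ⟨⟨h5.1, h5.2⟩, ⟨h6.1, h6.2⟩⟩
    · rw [mv_eq h2 vb α ha, mv_eq h2 vk α ha]
      simp only [Finset.mem_product]
      exact ⟨mem_sdv nb hb.1, mem_sdv ni hi.1, mem_sdv nj hj.1, mem_sdv nk hkk.1⟩
    · simp only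
      rw [if_pos hDL, Finset.mem_Ico]
      exact ⟨hκ0, hκ1⟩
    · simp only [Finset.mem_product]
      have e1 : lin α vi / pi = ri := by
        rw [hi.1]; exact Int.mul_ediv_cancel_left ri hpi
      have e2 : lin α vj / pj = rj := by
        rw [hj.1]; exact Int.mul_ediv_cancel_left rj hpj
      rw [e1, e2]
      exact ⟨mem_rng hD (hP _ _ _ hQi.2 qi), mem_rng hD (hP _ _ _ hQj.2 qj),
        mem_rng hD (hP _ _ _ hQk.2 qk), mem_rng hD (hRr _ _ _ hQi.1 si),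
        mem_rng hD (hRr _ _ _ hQj.1 sj)⟩
  · exact ⟨α, β, γ, D, κ, rb, rb', pi, pi', ri, ri', pj, pj', rj, rj', pk, pk', rk, rk', rfl,
      hD.ne', hpi, hpj, hpk, hq, hR, ha, hb, hi, hj, hkk⟩

end CNT1aux

open CNT1aux in
/-- Row CNT1. -/
theorem st_CNT1 (hF : ST_FIB) : ST_CNT1 := by
  intro va vb vi vj vk h1 h2 h3 K
  rcases le_or_gt K 0 with hK | hK
  · refine ⟨0, ?_⟩
    intro n hn τ hτ ea eb ei ej ek
    have hS : {N : TF | ∃ Qa Qb Qi Qj Qk : ℤ, ((4 : ℤ) ^ ea ≤ Qa ∧ Qa < 4 ^ (ea + 1)) ∧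
    ((4 : ℤ) ^ eb ≤ Qb ∧ Qb < 4 ^ (eb + 1)) ∧ ((4 : ℤ) ^ ei ≤ Qi ∧ Qi < 4 ^ (ei + 1)) ∧
    ((4 : ℤ) ^ ej ≤ Qj ∧ Qj < 4 ^ (ej + 1)) ∧ ((4 : ℤ) ^ ek ≤ Qk ∧ Qk < 4 ^ (ek + 1)) ∧
    Wit K n va vb vi vj vk N Qa Qb Qi Qj Qk} = ∅ := by
      refine Set.eq_empty_iff_forall_notMem.mpr ?_
      rintro N ⟨Qa, Qb, Qi, Qj, Qk, -, -, -, -, -, α, β, γ, D, κ, rb, rb', pi, pi', ri, ri', pj,
        pj', rj, rj', pk, pk', rk, rk', -, -, -, -, -, -, -, ⟨-, ni, -⟩, ⟨xi, -⟩, -, -, -,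
        ⟨o1, -⟩, -⟩
      have h5 : 0 < |lin α vi| := abs_pos.mpr ni
      nlinarith
    rw [hS]; simp
  obtain ⟨k, rfl⟩ : ∃ k : ℕ, K = (k : ℤ) := ⟨K.toNat, by omega⟩
  have hk : 1 ≤ k := by exact_mod_cast hK
  set wb : ℕ := (det3 vb vj va).natAbs + (det3 vi vb va).natAbs with hwb
  set wk : ℕ := (det3 vk vj va).natAbs + (det3 vi vk va).natAbs with hwk
  refine ⟨71663616 * k ^ 10 + 4 * k ^ 2 * (wb + wk + 1), ?_⟩
  intro n hn τ hτ ea eb ei ej ek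
  set S : Set TF := {N : TF | ∃ Qa Qb Qi Qj Qk : ℤ, ((4 : ℤ) ^ ea ≤ Qa ∧ Qa < 4 ^ (ea + 1)) ∧
    ((4 : ℤ) ^ eb ≤ Qb ∧ Qb < 4 ^ (eb + 1)) ∧ ((4 : ℤ) ^ ei ≤ Qi ∧ Qi < 4 ^ (ei + 1)) ∧
    ((4 : ℤ) ^ ej ≤ Qj ∧ Qj < 4 ^ (ej + 1)) ∧ ((4 : ℤ) ^ ek ≤ Qk ∧ Qk < 4 ^ (ek + 1)) ∧
    Wit (k : ℤ) n va vb vi vj vk N Qa Qb Qi Qj Qk} with hS
  rcases Set.eq_empty_or_nonempty S with h0 | ⟨N0, Qa, Qb, Qi, Qj, Qk, hQa, hQb, hQi, hQj, hQk, hw⟩
  · rw [h0]; simp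
  have hk' : (1 : ℤ) ≤ (k : ℤ) := by exact_mod_cast hk
  have hn' : (1 : ℤ) ≤ (n : ℤ) := by exact_mod_cast hn
  obtain ⟨-, -, -, -, -, -, -, -, -, -, -, -, -, -, -, -, -, -, -, -, -, -, -, -, -, -, -, -, -, -,
    -, ⟨o1, o2, o3, o4, o5⟩, ⟨u1, u2, u3, u4⟩⟩ := hw
  have hpw : ∀ x y : ℕ, (4 : ℤ) ^ x < 4 ^ (y + 1) → x ≤ y := by
    intro x y h
    have : x < y + 1 := (pow_lt_pow_iff_right₀ (by norm_num : (1 : ℤ) < 4)).mp h
    omega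
  have hei : ea ≤ ei := hpw _ _ (by linarith)
  have hej : ea ≤ ej := hpw _ _ (by linarith)
  have hek : ea ≤ ek := hpw _ _ (by linarith)
  obtain ⟨fi, rfl⟩ := Nat.exists_eq_add_of_le hei
  obtain ⟨fj, rfl⟩ := Nat.exists_eq_add_of_le hej
  obtain ⟨fk, rfl⟩ := Nat.exists_eq_add_of_le hek
  have h4 : ∀ e : ℕ, (4 : ℤ) ^ e = (2 ^ e) ^ 2 := by
    intro e
    rw [← pow_mul, mul_comm, pow_mul]; norm_num
  have hroot : ∀ (e : ℕ) (Q : ℤ), (4 : ℤ) ^ e ≤ Q → Q ≤ k * (n : ℤ) ^ 2 → 2 ^ e ≤ k * n := by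
    intro e Q h5 h6
    have h7 : |(2 : ℤ) ^ e| ≤ (k : ℤ) * n := by
      refine sq_cmp (by positivity) ?_
      rw [← h4]
      have hkk2 : (k : ℤ) ≤ (k : ℤ) ^ 2 := le_self_pow₀ hk' two_ne_zero
      calc (4 : ℤ) ^ e ≤ Q := h5
        _ ≤ k * (n : ℤ) ^ 2 := h6
        _ ≤ (k : ℤ) ^ 2 * (n : ℤ) ^ 2 := mul_le_mul_of_nonneg_right hkk2 (sq_nonneg _)
        _ = ((k : ℤ) * n) ^ 2 := by ring
    rw [abs_of_pos (by positivity)] at h7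
    exact_mod_cast h7
  have hb1 : 2 ^ eb ≤ k * n := hroot eb Qb hQb.1 u1
  have hk1 : 2 ^ (ea + fk) ≤ k * n := hroot (ea + fk) Qk hQk.1 u4
  have hsum : ∀ (f : ℕ) (Q : ℤ), (4 : ℤ) ^ (ea + f) ≤ Q → Qa ≤ Q → Q ≤ k * (n : ℤ) ^ 2 →
      2 ^ (ea + (ea + f)) ≤ k * n ^ 2 := by
    intro f Q h5 h6 h7
    have h8 : |(2 : ℤ) ^ (ea + (ea + f))| ≤ (k : ℤ) * (n : ℤ) ^ 2 := by
      refine sq_cmp (by positivity) ?_
      have hQ0 : 0 ≤ Q := by linarith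
      have hQa0 : 0 ≤ Qa := by linarith
      calc ((2 : ℤ) ^ (ea + (ea + f))) ^ 2 = 4 ^ ea * 4 ^ (ea + f) := by
            rw [← h4, pow_add]
        _ ≤ Qa * Q := by
            have := hQa.1
            gcongr
        _ ≤ Q * Q := by gcongr
        _ ≤ (k * (n : ℤ) ^ 2) * (k * (n : ℤ) ^ 2) := by gcongr
        _ = _ := by ring
    rw [abs_of_pos (by positivity)] at h8
    exact_mod_cast h8
  have hsi := hsum fi Qi hQi.1 o3 u2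
  have hsj := hsum fj Qj hQj.1 o4 u3
  have hX : k * 4 ^ (ea + 1) ≤ 4 * k ^ 2 * n ^ 2 := by
    have h5 : (4 : ℤ) ^ ea ≤ k * (n : ℤ) ^ 2 := by linarith [hQa.1]
    have h6 : 4 ^ ea ≤ k * n ^ 2 := by exact_mod_cast h5
    calc k * 4 ^ (ea + 1) = 4 * k * 4 ^ ea := by ring
      _ ≤ 4 * k * (k * n ^ 2) := by gcongr
      _ = _ := by ring
  have hCX : ∀ w : ℕ, w ≤ wb + wk + 1 → ∀ m : ℕ, 1 ≤ m → m ≤ w * (k * 4 ^ (ea + 1)) →
      m.divisors.card ≤ τ := by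
    intro w hw m hm1 hm2
    refine hτ m hm1 (hm2.trans ?_)
    calc w * (k * 4 ^ (ea + 1)) ≤ (wb + wk + 1) * (4 * k ^ 2 * n ^ 2) := Nat.mul_le_mul hw hX
      _ = 4 * k ^ 2 * (wb + wk + 1) * n ^ 2 := by ring
      _ ≤ (71663616 * k ^ 10 + 4 * k ^ 2 * (wb + wk + 1)) * n ^ 2 :=
          Nat.mul_le_mul (Nat.le_add_left _ _) le_rfl
  set T : Finset Cd := TT va vb vi vj vk (k * 4 ^ (ea + 1)) (k * 2 ^ (ea + eb + 2)) n
      (k * 2 ^ (fi + 1)) (k * 2 ^ (fj + 1)) (k * 2 ^ (fk + 1))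
      (k * n ^ 2 / 2 ^ (ea + (ea + fi)) + 1) (k * n ^ 2 / 2 ^ (ea + (ea + fj)) + 1) with hT
  have key : ∀ N : TF, N ∈ S → ∃ c : Cd, c ∈ T ∧ Rl va vb vi vj vk N c := by
    rintro N ⟨Qa, Qb, Qi, Qj, Qk, hQa, hQb, hQi, hQj, hQk, hw⟩
    obtain ⟨c, hc, hc2⟩ := exists_code h2 hk hn hQa hQb hQi hQj hQk hw
    exact ⟨c, hc, hc2⟩
  choose! f hf using key
  have hinj : Set.InjOn f S := by
    intro N hN N' hN' h
    have h5 := (hf N hN).2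
    have h6 := (hf N' hN').2
    rw [← h] at h6
    exact rl_inj hF h1 h2 h3 h5 h6
  have hmaps : Set.MapsTo f S (T : Set Cd) := fun N hN => Finset.mem_coe.mpr (hf N hN).1
  refine ⟨Set.Finite.of_injOn hmaps hinj T.finite_toSet, ?_⟩
  have hRi : ∀ e : ℕ, 2 ^ e ≤ k * n ^ 2 → (k * n ^ 2 / 2 ^ e + 1) * 2 ^ e ≤ 2 * k * n ^ 2 := by
    intro e he
    have := Nat.div_mul_le_self (k * n ^ 2) (2 ^ e)
    calc (k * n ^ 2 / 2 ^ e + 1) * 2 ^ e = k * n ^ 2 / 2 ^ e * 2 ^ e + 2 ^ e := by ring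
      _ ≤ k * n ^ 2 + k * n ^ 2 := Nat.add_le_add this he
      _ = _ := by ring
  have hcardT := card_TT va vb vi vj vk (k * 4 ^ (ea + 1)) (k * 2 ^ (ea + eb + 2)) n
      (k * 2 ^ (fi + 1)) (k * 2 ^ (fj + 1)) (k * 2 ^ (fk + 1))
      (k * n ^ 2 / 2 ^ (ea + (ea + fi)) + 1) (k * n ^ 2 / 2 ^ (ea + (ea + fj)) + 1) τ hn
      (fun m hm1 hm2 => hCX 1 (by omega) m hm1 (by simpa using hm2))
      (fun m hm1 hm2 => hCX wb (by omega) m hm1 hm2)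
      (fun m hm1 hm2 => hCX wk (by omega) m hm1 hm2)
  have hnum := numeric k n τ (2 ^ ea) (2 ^ eb) (2 ^ fi) (2 ^ fj) (2 ^ fk)
    (k * 2 ^ (ea + eb + 2) / n) (k * n ^ 2 / 2 ^ (ea + (ea + fi)) + 1)
    (k * n ^ 2 / 2 ^ (ea + (ea + fj)) + 1) hk hn Nat.one_le_two_pow Nat.one_le_two_pow
    Nat.one_le_two_pow Nat.one_le_two_pow
    (by
      refine (Nat.div_mul_le_self _ _).trans (le_of_eq ?_)
      ring)
    (by
      have := hRi _ hsi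
      have e : (2 ^ ea) ^ 2 * 2 ^ fi = 2 ^ (ea + (ea + fi)) := by ring
      rw [e]; exact this)
    (Nat.le_add_left 1 _)
    (by
      have := hRi _ hsj
      have e : (2 ^ ea) ^ 2 * 2 ^ fj = 2 ^ (ea + (ea + fj)) := by ring
      rw [e]; exact this)
    (Nat.le_add_left 1 _) hb1 (by rw [← pow_add]; exact hk1)
  calc S.ncard ≤ (T : Set Cd).ncard := Set.ncard_le_ncard_of_injOn f hmaps hinj T.finite_toSet
    _ = T.card := Set.ncard_coe_finset T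
    _ ≤ _ := hcardT
    _ = (2 * (4 * k * (2 ^ ea) ^ 2) + 1) ^ 2 * ((2 * τ) ^ 4 * (k * 2 ^ (ea + eb + 2) / n *
      ((2 * (2 * k * 2 ^ fi) + 1) * ((2 * (2 * k * 2 ^ fj) + 1) * ((2 * (2 * k * 2 ^ fk) + 1) *
      ((2 * (k * n ^ 2 / 2 ^ (ea + (ea + fi)) + 1) + 1) *
      (2 * (k * n ^ 2 / 2 ^ (ea + (ea + fj)) + 1) + 1))))))) := by
        have e1 : k * 4 ^ (ea + 1) = 4 * k * (2 ^ ea) ^ 2 := by
          have h5 : (4 : ℕ) ^ ea = (2 ^ ea) ^ 2 := by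
            rw [← pow_mul, mul_comm ea 2, pow_mul]; norm_num
          rw [pow_succ, h5]; ring
        have e2 : ∀ f : ℕ, k * 2 ^ (f + 1) = 2 * k * 2 ^ f := by
          intro f; ring
        rw [e1, e2 fi, e2 fj, e2 fk]
    _ ≤ 71663616 * k ^ 10 * τ ^ 4 * n ^ 5 := hnum
    _ ≤ (71663616 * k ^ 10 + 4 * k ^ 2 * (wb + wk + 1)) * τ ^ 4 * n ^ 5 :=
        Nat.mul_le_mul (Nat.mul_le_mul (Nat.le_add_right _ _) le_rfl) le_rfl

end Pool.Helper17.R5
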