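import Mathlib
import Pool.Agent.Helper17.R5.Sheet

/-! Rows REL, PTS (backup). -/

set_option autoImplicit false

namespace Pool.Helper17.R5

theorem h1_six_dvd_MM : (6 : ℤ) ∣ MM := by
  unfold MM
  have : (6 : ℕ) ∣ Nat.factorial 1000 := Nat.dvd_factorial (by norm_num) (by norm_num)
  exact_mod_cast this

theorem h1_REL1 (y : Fin 5 → ℤ) (hy : Good y) :
    6 * cc y = y 3 ^ 2 + y 1 ^ 2 - 2 * y 0 ^ 2 - 2 * y 2 ^ 2 ∧
    6 * bb y = y 4 ^ 2 - 12 * y 0 ^ 2 - 3 * y 3 ^ 2 - y 1 ^ 2 + 3 * y 2 ^ 2 ∧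
    6 * dd y = 6 * y 3 ^ 2 - 2 * y 1 ^ 2 - y 4 ^ 2 + 12 * y 0 ^ 2 - 3 * y 2 ^ 2 := by
  have h0 := (h1_six_dvd_MM.trans (hy 0))
  have h1 := (h1_six_dvd_MM.trans (hy 1))
  have h2 := (h1_six_dvd_MM.trans (hy 2))
  have h3 := (h1_six_dvd_MM.trans (hy 3))
  have h4 := (h1_six_dvd_MM.trans (hy 4))
  simp only [yb, Fin.isValue, Matrix.cons_val] at h0 h1 h2 h3 h4
  obtain ⟨a0, e0⟩ := h0
  obtain ⟨a1, e1⟩ := h1
  obtain ⟨a2, e2⟩ := h2
  obtain ⟨a3, e3⟩ := h3
  obtain ⟨a4, e4⟩ := h4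
  have f0 : y 0 = 8 + 6 * a0 := by linarith
  have f1 : y 1 = 4 + 6 * a1 := by linarith
  have f2 : y 2 = 3 + 6 * a2 := by linarith
  have f3 : y 3 = 2 + 6 * a3 := by linarith
  have f4 : y 4 = 5 + 6 * a4 := by linarith
  refine ⟨?_, ?_, ?_⟩
  · unfold cc
    refine Int.mul_ediv_cancel' ?_
    rw [f0, f1, f2, f3]
    ring_nf
    omega
  · unfold bb
    refine Int.mul_ediv_cancel' ?_
    rw [f0, f1, f2, f3, f4]
    ring_nf
    omega
  · unfold dd
    refine Int.mul_ediv_cancel' ?_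
    rw [f0, f1, f2, f3, f4]
    ring_nf
    omega

theorem h1_REL : ST_REL := by
  intro y hy
  obtain ⟨h1, h2, h3⟩ := h1_REL1 y hy
  refine ⟨h1, h2, h3, ?_⟩
  intro x
  refine ⟨?_, ?_, ?_⟩
  · intro i
    fin_cases i
    · simp [ev, vv, nf, tfa, tfb, tfh, tfk, tfd, tfe]
    · simp [ev, vv, nf, tfa, tfb, tfh, tfk, tfd, tfe]
      linarith
    · simp [ev, vv, nf, tfa, tfb, tfh, tfk, tfd, tfe]
    · simp [ev, vv, nf, tfa, tfb, tfh, tfk, tfd, tfe]
      linarith
    · simp [ev, vv, nf, tfa, tfb, tfh, tfk, tfd, tfe]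
      linarith
  · simp [ev, v6, nf, tfa, tfb, tfh, tfk, tfd, tfe]
    linarith
  · unfold disc nf tfa tfb tfh tfk tfd tfe aA aB
    ring

theorem h1_PTS : ST_PTS := by
  intro y hy s hs
  obtain ⟨h1, h2, h3⟩ := h1_REL1 y hy
  refine ⟨?_, ?_⟩
  · intro i hi
    fin_cases i
    · exact absurd rfl hi
    · have he : y 2 ^ 2 = y 1 ^ 2 - y 0 ^ 2 + bb y - 3 * cc y + dd y := by linarith
      simp only [yP, xP, aA, aB, xi, Fin.mk_one, Fin.isValue, Matrix.cons_val_one, Matrix.cons_val]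
      generalize bb y = b at *
      generalize cc y = c at *
      generalize dd y = d at *
      rw [he]
      rcases hs with rfl | rfl <;> ring
    · simp only [yP, xP, aA, aB, xi, Fin.reduceFinMk, Fin.isValue, Matrix.cons_val]
      generalize bb y = b at *
      generalize cc y = c at *
      generalize dd y = d at *
      rcases hs with rfl | rfl <;> ring
    · have he : y 2 ^ 2 = y 3 ^ 2 - y 0 ^ 2 - bb y - 3 * cc y - dd y := by linarith
      simp only [yP, xP, aA, aB, xi, Fin.reduceFinMk, Fin.isValue, Matrix.cons_val]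
      generalize bb y = b at *
      generalize cc y = c at *
      generalize dd y = d at *
      rw [he]
      rcases hs with rfl | rfl <;> ring
    · have he : y 2 ^ 2 = y 4 ^ 2 - 16 * y 0 ^ 2 - 8 * bb y - 12 * cc y - 2 * dd y := by linarith
      simp only [yP, xP, aA, aB, xi, Fin.reduceFinMk, Fin.isValue, Matrix.cons_val]
      generalize bb y = b at *
      generalize cc y = c at *
      generalize dd y = d at *
      rw [he]
      rcases hs with rfl | rfl <;> ring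
  · have he : y 0 ^ 2 = y 3 ^ 2 - y 2 ^ 2 - bb y - 3 * cc y - dd y := by linarith
    simp only [yQ, xQ, aA, aB]
    generalize bb y = b at *
    generalize cc y = c at *
    generalize dd y = d at *
    rw [he]
    rcases hs with rfl | rfl <;> ring

end Pool.Helper17.R5
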